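import Pool.Agent.V5helper2.NR.Stm

set_option autoImplicit false
open Finset Filter Topology MeasureTheory AddCircle
open scoped ComplexConjugate

namespace Pool.Agent.V5helper27.NR

open Pool.Agent.Helper498.NCR Pool.Agent.V5helper2.CF Pool.Agent.V5helper2.NR

noncomputable section

/-- shifted correlations -/
lemma corr_shift (a : ℕ → ℂ) (ha : ∀ n, ‖a n‖ ≤ 1) (γ : ℕ → ℂ) (M : ℕ → ℕ)
    (hM : Tendsto M atTop atTop) (hC : Corr a M γ) (k s : ℕ) :
    Tendsto (fun i => ((M i : ℕ) : ℂ)⁻¹ * ∑ n ∈ range (M i), a (n + s + k) * conj (a (n + s)))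
      atTop (𝓝 (γ k)) := by
  have h1 := hC k
  set b : ℕ → ℂ := fun j => a (j + k) * conj (a j) with hb
  have hb1 : ∀ j, ‖b j‖ ≤ 1 := by
    intro j
    simp only [hb]
    rw [norm_mul, RCLike.norm_conj]
    exact mul_le_one₀ (ha _) (norm_nonneg _) (ha _)
  have h2 : Tendsto (fun i => ((M i : ℕ) : ℂ)⁻¹ *
      (∑ n ∈ range (M i), b n - ∑ n ∈ range (M i), b (n + s))) atTop (𝓝 0) := by
    rw [tendsto_zero_iff_norm_tendsto_zero]
    refine squeeze_zero (fun i => norm_nonneg _) (g := fun i => ((M i : ℕ) : ℝ)⁻¹ * (2 * s))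
      (fun i => ?_) ?_
    · rw [norm_mul, norm_inv, Complex.norm_natCast]
      refine mul_le_mul_of_nonneg_left ?_ (by positivity)
      simpa using shift_one b 1 hb1 (M i) s
    · have h3 : Tendsto (fun i => ((M i : ℕ) : ℝ)⁻¹) atTop (𝓝 0) :=
        tendsto_inv_atTop_zero.comp (tendsto_natCast_atTop_atTop.comp hM)
      simpa using h3.mul_const (2 * (s : ℝ))
  have h3 := h1.sub h2
  rw [sub_zero] at h3
  refine h3.congr fun i => ?_
  rw [← mul_sub]
  simp [hb]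

lemma corr_gam (a : ℕ → ℂ) (ha : ∀ n, ‖a n‖ ≤ 1) (γ : ℕ → ℂ) (M : ℕ → ℕ)
    (hM : Tendsto M atTop atTop) (hC : Corr a M γ) (h h' : ℕ) :
    Tendsto (fun i => ((M i : ℕ) : ℂ)⁻¹ * ∑ n ∈ range (M i), a (n + h) * conj (a (n + h')))
      atTop (𝓝 (Gam γ h h')) := by
  unfold Gam
  split_ifs with hle
  · refine (corr_shift a ha γ M hM hC (h - h') h').congr fun i => ?_
    congr 1
    refine Finset.sum_congr rfl fun n _ => ?_
    rw [add_assoc, Nat.add_sub_cancel' hle]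
  · have h1 := (Complex.continuous_conj.tendsto _).comp
      (corr_shift a ha γ M hM hC (h' - h) h)
    refine h1.congr fun i => ?_
    simp only [Function.comp_apply]
    rw [map_mul, map_inv₀, Complex.conj_natCast, map_sum]
    congr 1
    refine Finset.sum_congr rfl fun n _ => ?_
    rw [map_mul, Complex.conj_conj, add_assoc, Nat.add_sub_cancel' (by omega : h ≤ h'), mul_comm]

lemma sq_expand (H : ℕ) (c : ℕ → ℂ) :
    (((‖(H : ℂ)⁻¹ * ∑ h ∈ range H, c h‖ ^ 2 : ℝ)) : ℂ) =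
      ((H : ℂ) ^ 2)⁻¹ * ∑ h ∈ range H, ∑ h' ∈ range H, c h * conj (c h') := by
  rw [← Complex.normSq_eq_norm_sq, ← Complex.mul_conj, map_mul, map_inv₀, Complex.conj_natCast,
    map_sum, ← Finset.sum_mul_sum]
  ring

lemma avg_lim (a : ℕ → ℂ) (ha : ∀ n, ‖a n‖ ≤ 1) (γ : ℕ → ℂ) (M : ℕ → ℕ)
    (hM : Tendsto M atTop atTop) (hC : Corr a M γ) (z : ℂ) (H : ℕ) :
    Tendsto (fun i => ((((M i : ℕ) : ℝ)⁻¹ * ∑ n ∈ range (M i),
      ‖(H : ℂ)⁻¹ * ∑ h ∈ range H, z ^ h * a (n + h)‖ ^ 2 : ℝ) : ℂ)) atTop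
      (𝓝 (((H : ℂ) ^ 2)⁻¹ * ∑ h ∈ range H, ∑ h' ∈ range H, z ^ h * conj (z ^ h') * Gam γ h h')) := by
  have h1 : Tendsto (fun i => ((H : ℂ) ^ 2)⁻¹ * ∑ h ∈ range H, ∑ h' ∈ range H,
      z ^ h * conj (z ^ h') *
        (((M i : ℕ) : ℂ)⁻¹ * ∑ n ∈ range (M i), a (n + h) * conj (a (n + h')))) atTop
      (𝓝 (((H : ℂ) ^ 2)⁻¹ * ∑ h ∈ range H, ∑ h' ∈ range H, z ^ h * conj (z ^ h') * Gam γ h h')) := by
    refine Tendsto.const_mul _ (tendsto_finsetSum _ fun h _ => tendsto_finsetSum _ fun h' _ => ?_)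
    exact (corr_gam a ha γ M hM hC h h').const_mul _
  refine h1.congr fun i => ?_
  have h2 : ∀ n, (((‖(H : ℂ)⁻¹ * ∑ h ∈ range H, z ^ h * a (n + h)‖ ^ 2 : ℝ)) : ℂ) =
      ((H : ℂ) ^ 2)⁻¹ * ∑ h ∈ range H, ∑ h' ∈ range H,
        (z ^ h * conj (z ^ h')) * (a (n + h) * conj (a (n + h'))) := by
    intro n
    rw [sq_expand H (fun h => z ^ h * a (n + h))]
    congr 1
    refine Finset.sum_congr rfl fun h _ => Finset.sum_congr rfl fun h' _ => ?_
    rw [map_mul]; ring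
  rw [Complex.ofReal_mul, Complex.ofReal_inv, Complex.ofReal_natCast, Complex.ofReal_sum]
  rw [Finset.sum_congr rfl fun n _ => h2 n, ← Finset.mul_sum]
  have h5 : ((M i : ℕ) : ℂ)⁻¹ * ∑ n ∈ range (M i), ∑ h ∈ range H, ∑ h' ∈ range H,
        (z ^ h * conj (z ^ h')) * (a (n + h) * conj (a (n + h'))) =
      ∑ h ∈ range H, ∑ h' ∈ range H, z ^ h * conj (z ^ h') *
        (((M i : ℕ) : ℂ)⁻¹ * ∑ n ∈ range (M i), a (n + h) * conj (a (n + h'))) := by
    have e1 : ∑ n ∈ range (M i), ∑ h ∈ range H, ∑ h' ∈ range H,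
        (z ^ h * conj (z ^ h')) * (a (n + h) * conj (a (n + h'))) =
        ∑ h ∈ range H, ∑ h' ∈ range H, ∑ n ∈ range (M i),
        (z ^ h * conj (z ^ h')) * (a (n + h) * conj (a (n + h'))) :=
      Finset.sum_comm.trans (Finset.sum_congr rfl fun h _ => Finset.sum_comm)
    rw [e1, Finset.mul_sum]
    refine Finset.sum_congr rfl fun h _ => ?_
    rw [Finset.mul_sum]
    refine Finset.sum_congr rfl fun h' _ => ?_
    rw [← Finset.mul_sum]
    ring
  rw [← h5]
  ring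

/-- the kernel -/
def phi (t : Ci) (H : ℕ) (s : Ci) : ℝ :=
  ‖(H : ℂ)⁻¹ * ∑ h ∈ range H, fourier (-(h : ℤ)) t * fourier (h : ℤ) s‖ ^ 2

lemma phi_cont (t : Ci) (H : ℕ) : Continuous (phi t H) := by
  have h1 : Continuous fun s : Ci =>
      (H : ℂ)⁻¹ * ∑ h ∈ range H, fourier (-(h : ℤ)) t * fourier (h : ℤ) s :=
    continuous_const.mul (continuous_finsetSum _ fun h _ =>
      continuous_const.mul (fourier (h : ℤ)).continuous)
  exact h1.norm.pow 2

lemma phi_self (t : Ci) (H : ℕ) (hH : 1 ≤ H) : phi t H t = 1 := by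
  unfold phi
  have hH0 : (H : ℂ) ≠ 0 := by exact_mod_cast (by omega : H ≠ 0)
  have h1 : ∀ h ∈ range H, fourier (-(h : ℤ)) t * fourier (h : ℤ) t = (1 : ℂ) := by
    intro h _
    rw [← fourier_add, neg_add_cancel, fourier_zero]
  rw [Finset.sum_congr rfl h1]
  simp [hH0]

lemma phi_int (ρ : Measure Ci) [IsFiniteMeasure ρ] (γ : ℕ → ℂ) (hR : Rep ρ γ) (t : Ci) (H : ℕ) :
    ((H : ℂ) ^ 2)⁻¹ * ∑ h ∈ range H, ∑ h' ∈ range H,
      (fourier (-1) t : ℂ) ^ h * conj ((fourier (-1) t : ℂ) ^ h') * Gam γ h h' =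
      ((∫ s, phi t H s ∂ρ : ℝ) : ℂ) := by
  have hint : ∀ m : ℤ, Integrable (fun t : Ci => fourier m t) ρ := fun m =>
    (fourier m).continuous.integrable_of_hasCompactSupport
      (HasCompactSupport.of_compactSpace _)
  have hG : ∀ h h' : ℕ, Gam γ h h' = ∫ s, fourier ((h : ℤ) - h') s ∂ρ := by
    intro h h'
    have h1 := hR h h'
    have h2 := congrArg conj h1
    rw [Complex.conj_conj, ← integral_conj] at h2
    rw [h2]
    refine integral_congr_ae (Eventually.of_forall fun s => ?_)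
    simp only
    rw [← fourier_neg, neg_sub]
  rw [← integral_complex_ofReal]
  have h3 : ∀ s, ((phi t H s : ℝ) : ℂ) = ((H : ℂ) ^ 2)⁻¹ * ∑ h ∈ range H, ∑ h' ∈ range H,
      ((fourier (-1) t : ℂ) ^ h * conj ((fourier (-1) t : ℂ) ^ h')) * fourier ((h : ℤ) - h') s := by
    intro s
    unfold phi
    rw [sq_expand H (fun h => fourier (-(h : ℤ)) t * fourier (h : ℤ) s)]
    congr 1
    refine Finset.sum_congr rfl fun h _ => Finset.sum_congr rfl fun h' _ => ?_
    rw [map_mul, fourier_pow, fourier_pow, sub_eq_add_neg, fourier_add, ← fourier_neg (n := (h' : ℤ))]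
    ring
  simp_rw [h3]
  rw [integral_const_mul, integral_finsetSum _ fun j _ =>
    integrable_finsetSum _ fun j' _ => (hint _).const_mul _]
  congr 1
  refine Finset.sum_congr rfl fun h _ => ?_
  rw [integral_finsetSum _ fun j' _ => (hint _).const_mul _]
  refine Finset.sum_congr rfl fun h' _ => ?_
  rw [integral_const_mul, hG]

theorem t_ATM : S_ATM := by
  intro a ha γ M hM hC ρ hρ hR t hA
  have key : ∀ ε > 0, ρ.real {t} ≤ ε := by
    intro ε hε
    obtain ⟨H, hH, hev⟩ := hA ε hε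
    have hlim := avg_lim a ha γ M hM hC (fourier (-1) t) H
    rw [phi_int ρ γ hR t H] at hlim
    have h1 : ∫ s, phi t H s ∂ρ ≤ ε := by
      have h2 := (Complex.continuous_re.tendsto _).comp hlim
      simp only [Function.comp_def, Complex.ofReal_re] at h2
      exact le_of_tendsto h2 hev
    have hint : Integrable (phi t H) ρ :=
      (phi_cont t H).integrable_of_hasCompactSupport (HasCompactSupport.of_compactSpace _)
    have h3 : ∫ s in ({t} : Set Ci), phi t H s ∂ρ ≤ ∫ s, phi t H s ∂ρ :=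
      setIntegral_le_integral hint (Eventually.of_forall fun s => by
        show 0 ≤ phi t H s
        unfold phi; positivity)
    rw [integral_singleton, phi_self t H hH, smul_eq_mul, mul_one] at h3
    linarith
  have h0 : ρ.real {t} ≤ 0 := le_of_forall_pos_le_add fun ε hε => by
    rw [zero_add]; exact key ε hε
  have h1 : ρ.real {t} = 0 := le_antisymm h0 measureReal_nonneg
  rwa [measureReal_eq_zero_iff] at h1

end

end Pool.Agent.V5helper27.NR
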